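import Pool.Agent.Lead.Mod1

namespace Pool.Agent.Results.MP_e3277b_lc.Q1

open Pool.Agent.Lead.Mod Pool.Agent.Lead.Mod.Fm

/-- `L` has the Kripke criterion: `a, b` have no interpolant in `L` iff there are
`sig a ∩ sig b`-bisimilar pointed models on Kripke frames for `L` satisfying `a` and `¬ b`. -/
def KripkeCriterion (L : Set Fm) : Prop :=
  ∀ a b : Fm, (¬ ∃ ι, Interpolant L a b ι) ↔
    ∃ (W₁ W₂ : Type) (R₁ : W₁ → W₁ → Prop) (R₂ : W₂ → W₂ → Prop)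
      (V₁ : ℕ → W₁ → Prop) (V₂ : ℕ → W₂ → Prop) (x₁ : W₁) (x₂ : W₂) (Z : W₁ → W₂ → Prop),
      FrameFor L R₁ ∧ FrameFor L R₂ ∧ IsBisim (sig a ∩ sig b) R₁ V₁ R₂ V₂ Z ∧ Z x₁ x₂ ∧
      Sat R₁ V₁ a x₁ ∧ Sat R₂ V₂ (neg b) x₂

/-- `L` is strongly Kripke complete: every `L`-consistent set is satisfied at a point of a model
on a Kripke frame for `L`. -/
def StronglyComplete (L : Set Fm) : Prop :=
  ∀ Γ : Set Fm, Consistent L Γ →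
    ∃ (W : Type) (R : W → W → Prop) (V : ℕ → W → Prop) (w : W),
      FrameFor L R ∧ ∀ a ∈ Γ, Sat R V a w

theorem result : ∃ L : Set Fm, Normal L ∧ KripkeCriterion L ∧ ¬ StronglyComplete L := by
  refine ⟨LG, LG_normal, fun a b => ⟨fun h => ?_, ?_⟩, fun h => ?_⟩
  · obtain ⟨x, hx1, hx2⟩ := no_interp h
    refine ⟨x.W, x.W, x.R, x.R, x.V, x.V, x.w, x.w, Eq, frameFor_LG _ x.tr x.wf,
      frameFor_LG _ x.tr x.wf, ?_, rfl, hx1, hx2⟩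
    rintro u v rfl
    exact ⟨fun _ _ => Iff.rfl, fun y hy => ⟨y, hy, rfl⟩, fun y hy => ⟨y, hy, rfl⟩⟩
  · rintro ⟨W₁, W₂, R₁, R₂, V₁, V₂, x₁, x₂, Z, h1, h2, hZ, hx, ha, hb⟩ ⟨ι, hι, h3, h4⟩
    exact hb (h2 _ h4 V₂ x₂ ((bisim_inv hZ ι hι x₁ x₂ hx).1 (h1 _ h3 V₁ x₁ ha)))
  · obtain ⟨W, R, V, w, hF, H⟩ := h _ gam_consistent
    exact gam_unsat hF V w H

end Pool.Agent.Results.MP_e3277b_lc.Q1
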